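import Pool.Agent.Helper53.CTG.Goals

/-!
# Project CTG (MP_8b4d68_lc), packet CTG-KBX (helper33)
-/

namespace Pool.Agent.Helper33.CTG

open Pool.Agent.Helper1.TE (Gad app cif)
open Pool.Agent.Helper53.CTG
open Finset

variable {Z : Type}

theorem shl_V {g : Gad Z} (hg : OK9 g) (l : List ℕ) (hl : ∀ a ∈ l, a < g.K) :
    ∀ z, g.V z → g.V (shl g l z) := by
  induction l with
  | nil => intro z hz; exact hz
  | cons a l ih =>
    intro z hz
    have h1 : shl g (a :: l) z = shl g l (g.sh a z) := rfl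
    rw [h1]
    exact ih (fun b hb => hl b (List.mem_cons_of_mem _ hb)) _
      (hg.sh_V a (hl a List.mem_cons_self) z hz)

theorem app_V {g : Gad Z} (hg : OK9 g) {tst : ℕ → ℕ} {T v : ℕ} {z z' : Z} (hv : v < g.K)
    (hz : g.V z) (h : app g tst T v z = some z') : g.V z' := by
  unfold app at h
  split_ifs at h with h1 h2 h3
  · cases h; exact hz
  · cases h; exact hg.hd_V v hv z hz
  · exact hg.un_V v hv z z' hz h

theorem ev_lt {K : ℕ} {t : ℕ → ℕ → ℕ → ℕ → ℕ → ℕ} (ht : ∀ m v x y z, t m v x y z < K)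
    (q c : ℕ) : ∀ n v x, ev t q c n v x < K := by
  intro n
  cases n with
  | zero => intro v x; exact ht _ _ _ _ _
  | succ n => intro v x; exact ht _ _ _ _ _

theorem dec2 {K G : ℕ} (hK : 1 ≤ K) (hG : G < K ^ 3) :
    gA K G < K ∧ gY K G < K ∧ gZ K G < K ∧ G = enc K (gA K G) (gY K G) (gZ K G) := by
  unfold gA gY gZ enc
  refine ⟨Nat.div_lt_of_lt_mul (by rw [← pow_succ]; exact hG), Nat.mod_lt _ hK,
    Nat.mod_lt _ hK, ?_⟩
  have h1 := Nat.div_add_mod G K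
  have h2 := Nat.div_add_mod (G / K) K
  have h3 : G / K / K = G / K ^ 2 := by rw [Nat.div_div_eq_div_mul, pow_two]
  rw [h3] at h2
  calc G = K * (G / K) + G % K := h1.symm
    _ = K * (K * (G / K ^ 2) + G / K % K) + G % K := by rw [h2]
    _ = G / K ^ 2 * K ^ 2 + G / K % K * K + G % K := by ring

theorem dec1 {K G : ℕ} (h : nrm K 1 G) : gZ K G = 0 := h.2 rfl

theorem dec0 {K G : ℕ} (hK : 1 ≤ K) (h : nrm K 0 G) : gY K G = 0 ∧ gZ K G = 0 := by
  have h0 : G % K ^ 2 = 0 := h.1 rfl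
  obtain ⟨a, ha⟩ := Nat.dvd_of_mod_eq_zero h0
  have hGK : G = K * (K * a) := by rw [ha]; ring
  unfold gY gZ
  rw [hGK]
  constructor
  · rw [Nat.mul_div_cancel_left _ hK, Nat.mul_mod_right]
  · rw [Nat.mul_mod_right]

section
variable (g : Gad Z) (tst : ℕ → ℕ) (t : ℕ → ℕ → ℕ → ℕ → ℕ → ℕ) (q c : ℕ)

theorem push0 (hE : Elem) (hK : 1 ≤ g.K) (e f v j T n : ℕ) (γ : ℕ → ℕ) (C : ℕ → Z) (A : ℕ)
    (s' : (ℕ → Z) × ℕ) (hγ : ∀ τ, γ τ < g.K ^ 3)
    (h : Rn g tst t q c (4, 0, e, f, v, j, T) n γ (C, A) = some s') :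
    ∃ a < g.K, γ 0 = enc g.K a 0 0 ∧ (∀ τ, 0 < τ → τ < 13 ^ n → γ τ = 0) ∧
      s' = (Function.update C e (g.sh a (C e)), A * 2 ^ c + t 0 v a 0 0 % 2 ^ c) := by
  obtain ⟨h1, h2⟩ := (hE.1 g tst t q c ((4, 0, e, f, v, j, T) : De) n γ _ s' (Or.inr (show (4 : ℕ) ≠ 0 by decide))).mp h
  have h3 : exec g tst t c ((4, 0, e, f, v, j, T) : De) (γ 0) (C, A) =
      if nrm g.K 0 (γ 0) then some (Function.update C e (g.sh (gA g.K (γ 0)) (C e)),
        A * 2 ^ c + t 0 v (gA g.K (γ 0)) (gY g.K (γ 0)) (gZ g.K (γ 0)) % 2 ^ c) else none := rfl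
  rw [h3] at h1
  split_ifs at h1 with h4
  obtain ⟨k1, k2, k3, k4⟩ := dec2 hK (hγ 0)
  obtain ⟨k5, k6⟩ := dec0 hK h4
  rw [k5, k6] at k4 h1
  exact ⟨_, k1, k4, h2, (Option.some.inj h1).symm⟩

theorem pop0 (hE : Elem) (hK : 1 ≤ g.K) (e f v j T n : ℕ) (γ : ℕ → ℕ) (C : ℕ → Z) (A : ℕ)
    (s' : (ℕ → Z) × ℕ) (hγ : ∀ τ, γ τ < g.K ^ 3)
    (h : Rn g tst t q c (5, 0, e, f, v, j, T) n γ (C, A) = some s') :
    ∃ a < g.K, γ 0 = enc g.K a 0 0 ∧ (∀ τ, 0 < τ → τ < 13 ^ n → γ τ = 0) ∧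
      t 0 v a 0 0 % 2 ^ c = A % 2 ^ c ∧
      s' = (Function.update C e (g.sh a (C e)), A / 2 ^ c) := by
  obtain ⟨h1, h2⟩ := (hE.1 g tst t q c ((5, 0, e, f, v, j, T) : De) n γ _ s' (Or.inr (show (5 : ℕ) ≠ 0 by decide))).mp h
  have h3 : exec g tst t c ((5, 0, e, f, v, j, T) : De) (γ 0) (C, A) =
      if nrm g.K 0 (γ 0) then
        (if t 0 v (gA g.K (γ 0)) (gY g.K (γ 0)) (gZ g.K (γ 0)) % 2 ^ c = A % 2 ^ c then
        some (Function.update C e (g.sh (gA g.K (γ 0)) (C e)), A / 2 ^ c) else none)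
      else none := rfl
  rw [h3] at h1
  split_ifs at h1 with h4 h5
  obtain ⟨k1, k2, k3, k4⟩ := dec2 hK (hγ 0)
  obtain ⟨k5, k6⟩ := dec0 hK h4
  rw [k5, k6] at k4 h5
  exact ⟨_, k1, k4, h2, h5, (Option.some.inj h1).symm⟩

theorem push1 (hE : Elem) (hK : 1 ≤ g.K) (e f v j T n : ℕ) (γ : ℕ → ℕ) (C : ℕ → Z) (A : ℕ)
    (s' : (ℕ → Z) × ℕ) (hγ : ∀ τ, γ τ < g.K ^ 3)
    (h : Rn g tst t q c (4, 1, e, f, v, j, T) n γ (C, A) = some s') :
    ∃ a < g.K, ∃ y < g.K, γ 0 = enc g.K a y 0 ∧ (∀ τ, 0 < τ → τ < 13 ^ n → γ τ = 0) ∧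
      s' = (Function.update (Function.update C e (g.sh a (C e))) f (g.sh y (C f)),
        A * 2 ^ c + t 1 v a y 0 % 2 ^ c) := by
  obtain ⟨h1, h2⟩ := (hE.1 g tst t q c ((4, 1, e, f, v, j, T) : De) n γ _ s' (Or.inr (show (4 : ℕ) ≠ 0 by decide))).mp h
  have h3 : exec g tst t c ((4, 1, e, f, v, j, T) : De) (γ 0) (C, A) =
      if nrm g.K 1 (γ 0) then some (Function.update (Function.update C e
        (g.sh (gA g.K (γ 0)) (C e))) f (g.sh (gY g.K (γ 0)) (C f)),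
        A * 2 ^ c + t 1 v (gA g.K (γ 0)) (gY g.K (γ 0)) (gZ g.K (γ 0)) % 2 ^ c) else none := rfl
  rw [h3] at h1
  split_ifs at h1 with h4
  obtain ⟨k1, k2, k3, k4⟩ := dec2 hK (hγ 0)
  have k6 := dec1 h4
  rw [k6] at k4 h1
  exact ⟨_, k1, _, k2, k4, h2, (Option.some.inj h1).symm⟩

theorem pop1 (hE : Elem) (hK : 1 ≤ g.K) (e f v j T n : ℕ) (γ : ℕ → ℕ) (C : ℕ → Z) (A : ℕ)
    (s' : (ℕ → Z) × ℕ) (hγ : ∀ τ, γ τ < g.K ^ 3)
    (h : Rn g tst t q c (5, 1, e, f, v, j, T) n γ (C, A) = some s') :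
    ∃ a < g.K, ∃ y < g.K, γ 0 = enc g.K a y 0 ∧ (∀ τ, 0 < τ → τ < 13 ^ n → γ τ = 0) ∧
      t 1 v a y 0 % 2 ^ c = A % 2 ^ c ∧
      s' = (Function.update (Function.update C e (g.sh a (C e))) f (g.sh y (C f)),
        A / 2 ^ c) := by
  obtain ⟨h1, h2⟩ := (hE.1 g tst t q c ((5, 1, e, f, v, j, T) : De) n γ _ s' (Or.inr (show (5 : ℕ) ≠ 0 by decide))).mp h
  have h3 : exec g tst t c ((5, 1, e, f, v, j, T) : De) (γ 0) (C, A) =
      if nrm g.K 1 (γ 0) then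
        (if t 1 v (gA g.K (γ 0)) (gY g.K (γ 0)) (gZ g.K (γ 0)) % 2 ^ c = A % 2 ^ c then
        some (Function.update (Function.update C e
        (g.sh (gA g.K (γ 0)) (C e))) f (g.sh (gY g.K (γ 0)) (C f)), A / 2 ^ c) else none)
      else none := rfl
  rw [h3] at h1
  split_ifs at h1 with h4 h5
  obtain ⟨k1, k2, k3, k4⟩ := dec2 hK (hγ 0)
  have k6 := dec1 h4
  rw [k6] at k4 h5
  exact ⟨_, k1, _, k2, k4, h2, h5, (Option.some.inj h1).symm⟩

theorem act2 (hE : Elem) (hK : 1 ≤ g.K) (e f v i T n : ℕ) (γ : ℕ → ℕ) (C : ℕ → Z) (A : ℕ)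
    (s' : (ℕ → Z) × ℕ) (hγ : ∀ τ, γ τ < g.K ^ 3)
    (h : Rn g tst t q c (3, 2, e, f, v, i, T) n γ (C, A) = some s') :
    ∃ a < g.K, ∃ y < g.K, ∃ z < g.K, γ 0 = enc g.K a y z ∧
      (∀ τ, 0 < τ → τ < 13 ^ n → γ τ = 0) ∧ ∃ w, app g tst T (t 2 v a y z) (C i) = some w ∧
      s' = (Function.update (Function.update (Function.update (Function.update C e
        (g.sh a (C e))) f (shl g (List.replicate 5 y) (C f))) (f + 1)
        (shl g (List.replicate 9 z) (C (f + 1)))) i w, A) := by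
  obtain ⟨h1, h2⟩ := (hE.1 g tst t q c ((3, 2, e, f, v, i, T) : De) n γ _ s' (Or.inr (show (3 : ℕ) ≠ 0 by decide))).mp h
  have h3 : exec g tst t c ((3, 2, e, f, v, i, T) : De) (γ 0) (C, A) =
      if nrm g.K 2 (γ 0) then
        (app g tst T (t 2 v (gA g.K (γ 0)) (gY g.K (γ 0)) (gZ g.K (γ 0))) (C i)).map fun w =>
        (Function.update (Function.update (Function.update (Function.update C e
        (g.sh (gA g.K (γ 0)) (C e))) f (shl g (List.replicate 5 (gY g.K (γ 0))) (C f))) (f + 1)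
        (shl g (List.replicate 9 (gZ g.K (γ 0))) (C (f + 1)))) i w, A)
      else none := rfl
  rw [h3] at h1
  split_ifs at h1 with h4
  obtain ⟨k1, k2, k3, k4⟩ := dec2 hK (hγ 0)
  obtain ⟨w, hw, hw'⟩ := Option.map_eq_some_iff.mp h1
  exact ⟨_, k1, _, k2, _, k3, k4, h2, w, hw, hw'.symm⟩

end

/-- Four registers with known contents; the others are unchanged. -/
structure St (e y z i : ℕ) (C0 C : ℕ → Z) (E Y W I : Z) : Prop where
  he : C e = E
  hy : C y = Y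
  hz : C z = W
  hi : C i = I
  ho : ∀ j, j ≠ e → j ≠ y → j ≠ z → j ≠ i → C j = C0 j

/-- Different registers. -/
structure Df (e y z i : ℕ) : Prop where
  ey : e ≠ y
  ez : e ≠ z
  yz : y ≠ z
  ei : e ≠ i
  yi : y ≠ i
  zi : z ≠ i

section
variable {e y z i : ℕ} {C0 C : ℕ → Z} {E Y W I : Z}

theorem St.uE (d : Df e y z i) (h : St e y z i C0 C E Y W I) (X : Z) :
    St e y z i C0 (Function.update C e X) X Y W I where
  he := Function.update_self _ _ _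
  hy := by rw [Function.update_of_ne d.ey.symm]; exact h.hy
  hz := by rw [Function.update_of_ne d.ez.symm]; exact h.hz
  hi := by rw [Function.update_of_ne d.ei.symm]; exact h.hi
  ho j h1 h2 h3 h4 := by rw [Function.update_of_ne h1]; exact h.ho j h1 h2 h3 h4

theorem St.uY (d : Df e y z i) (h : St e y z i C0 C E Y W I) (X : Z) :
    St e y z i C0 (Function.update C y X) E X W I where
  he := by rw [Function.update_of_ne d.ey]; exact h.he
  hy := Function.update_self _ _ _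
  hz := by rw [Function.update_of_ne d.yz.symm]; exact h.hz
  hi := by rw [Function.update_of_ne d.yi.symm]; exact h.hi
  ho j h1 h2 h3 h4 := by rw [Function.update_of_ne h2]; exact h.ho j h1 h2 h3 h4

theorem St.uZ (d : Df e y z i) (h : St e y z i C0 C E Y W I) (X : Z) :
    St e y z i C0 (Function.update C z X) E Y X I where
  he := by rw [Function.update_of_ne d.ez]; exact h.he
  hy := by rw [Function.update_of_ne d.yz]; exact h.hy
  hz := Function.update_self _ _ _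
  hi := by rw [Function.update_of_ne d.zi.symm]; exact h.hi
  ho j h1 h2 h3 h4 := by rw [Function.update_of_ne h3]; exact h.ho j h1 h2 h3 h4

theorem St.uI (d : Df e y z i) (h : St e y z i C0 C E Y W I) (X : Z) :
    St e y z i C0 (Function.update C i X) E Y W X where
  he := by rw [Function.update_of_ne d.ei]; exact h.he
  hy := by rw [Function.update_of_ne d.yi]; exact h.hy
  hz := by rw [Function.update_of_ne d.zi]; exact h.hz
  hi := Function.update_self _ _ _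
  ho j h1 h2 h3 h4 := by rw [Function.update_of_ne h4]; exact h.ho j h1 h2 h3 h4

theorem St.fin (h : St e y z i C0 C E Y W I) (hY : Y = C0 y) (hW : W = C0 z) :
    C = Function.update (Function.update C0 i I) e E := by
  funext j
  by_cases j1 : j = e
  · rw [j1, Function.update_self, h.he]
  rw [Function.update_of_ne j1]
  by_cases j2 : j = i
  · rw [j2, Function.update_self, h.hi]
  rw [Function.update_of_ne j2]
  by_cases j3 : j = y
  · rw [j3, h.hy, hY]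
  by_cases j4 : j = z
  · rw [j4, h.hz, hW]
  exact h.ho j j1 j3 j4 j2

theorem St.val {V : Z → Prop} (h : St e y z i C0 C E Y W I) (h0 : ∀ j, V (C0 j)) (hE : V E)
    (hY : V Y) (hW : V W) (hI : V I) (j : ℕ) : V (C j) := by
  by_cases h1 : j = e
  · rw [h1, h.he]; exact hE
  by_cases h2 : j = y
  · rw [h2, h.hy]; exact hY
  by_cases h3 : j = z
  · rw [h3, h.hz]; exact hW
  by_cases h4 : j = i
  · rw [h4, h.hi]; exact hI
  rw [h.ho j h1 h2 h3 h4]; exact h0 j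

end

theorem phB0 (q p v i T : ℕ) : phB q p v i T 0 =
    (4, 0, 3 * (q - 1), 0, v, 3 * q + 4, 1) := rfl
theorem phB1 (q p v i T : ℕ) : phB q p v i T 1 = nod (2 * v) (3 * q + 2 * p) 1 := rfl
theorem phB2 (q p v i T : ℕ) : phB q p v i T 2 =
    (5, 0, 3 * (q - 1), 0, v, 3 * q + 4, 2) := rfl
theorem phB3 (q p v i T : ℕ) : phB q p v i T 3 =
    (4, 1, 3 * (q - 1), 3 * q + 2 * p, v, 3 * q + 4, 1) := rfl
theorem phB4 (q p v i T : ℕ) : phB q p v i T 4 =
    nod (2 * v + 1) (3 * q + 2 * p + 1) 1 := rfl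
theorem phB5 (q p v i T : ℕ) : phB q p v i T 5 =
    (5, 1, 3 * (q - 1), 3 * q + 2 * p, v, 3 * q + 4, 2) := rfl
theorem phB6 (q p v i T : ℕ) : phB q p v i T 6 =
    (3, 2, 3 * (q - 1), 3 * q + 2 * p, v, i, T) := rfl
theorem phB7 (q p v i T : ℕ) : phB q p v i T 7 =
    (4, 1, 3 * (q - 1), 3 * q + 2 * p, v, 3 * q + 4, 1) := rfl
theorem phB8 (q p v i T : ℕ) : phB q p v i T 8 =
    nod (2 * v + 1) (3 * q + 2 * p + 1) 2 := rfl
theorem phB9 (q p v i T : ℕ) : phB q p v i T 9 =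
    (5, 1, 3 * (q - 1), 3 * q + 2 * p, v, 3 * q + 4, 2) := rfl
theorem phB10 (q p v i T : ℕ) : phB q p v i T 10 =
    (4, 0, 3 * (q - 1), 0, v, 3 * q + 4, 1) := rfl
theorem phB11 (q p v i T : ℕ) : phB q p v i T 11 = nod (2 * v) (3 * q + 2 * p) 2 := rfl
theorem phB12 (q p v i T : ℕ) : phB q p v i T 12 =
    (5, 0, 3 * (q - 1), 0, v, 3 * q + 4, 2) := rfl

/-- The right guesses of a node at the bottom of a block. -/
theorem can_bot (K : ℕ) (t : ℕ → ℕ → ℕ → ℕ → ℕ → ℕ) (q c m v X d ρ : ℕ) (hq : 1 ≤ q)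
    (hρ : ρ < 13 ^ ((q + 1) * m)) :
    can K t q c ((q + 1) * m + 1) v X (d * 13 ^ ((q + 1) * m) + ρ) =
      if d = 1 ∨ d = 11 then can K t q c ((q + 1) * m) (2 * v) (t 0 v X 0 0 % 2 ^ c) ρ
      else if d = 4 ∨ d = 8 then
        can K t q c ((q + 1) * m) (2 * v + 1) (t 1 v X (ev t q c (q * m) (2 * v)
          (t 0 v X 0 0 % 2 ^ c)) 0 % 2 ^ c) ρ
      else if ρ ≠ 0 then 0
      else if d = 0 ∨ d = 2 ∨ d = 10 ∨ 12 ≤ d then enc K X 0 0
      else if d = 6 then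
        enc K X (ev t q c (q * m) (2 * v) (t 0 v X 0 0 % 2 ^ c))
          (ev t q c (q * m) (2 * v + 1) (t 1 v X (ev t q c (q * m) (2 * v)
            (t 0 v X 0 0 % 2 ^ c)) 0 % 2 ^ c))
      else enc K X (ev t q c (q * m) (2 * v) (t 0 v X 0 0 % 2 ^ c)) 0 := by
  have h1 : (d * 13 ^ ((q + 1) * m) + ρ) / 13 ^ ((q + 1) * m) = d := by
    rw [Nat.add_comm, Nat.add_mul_div_right _ _ (pow_pos (by norm_num) _),
      Nat.div_eq_of_lt hρ, Nat.zero_add]
  have h2 : (d * 13 ^ ((q + 1) * m) + ρ) % 13 ^ ((q + 1) * m) = ρ := by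
    rw [Nat.add_comm, Nat.add_mul_mod_self_right, Nat.mod_eq_of_lt hρ]
  have h3 : (q + 1) * m % (q + 1) = 0 := Nat.mul_mod_right _ _
  have h4 : (q + 1) * m / (q + 1) = m := Nat.mul_div_cancel_left _ (Nat.succ_pos q)
  have h5 : ∀ X, cut q c (q * m) X = X % 2 ^ c := by
    intro X
    unfold cut
    rw [if_pos (Nat.mul_mod_right _ _)]
  have h6 : ¬ (0 = q) := by omega
  rw [can, h1, h2, h3, h4, if_neg h6]
  simp only [Nat.add_zero, h5]

theorem ev_bot (t : ℕ → ℕ → ℕ → ℕ → ℕ → ℕ) (q c m v X : ℕ) :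
    ev t q c (q * m + 1) v X = t 2 v X (ev t q c (q * m) (2 * v) (t 0 v X 0 0 % 2 ^ c))
      (ev t q c (q * m) (2 * v + 1) (t 1 v X (ev t q c (q * m) (2 * v)
        (t 0 v X 0 0 % 2 ^ c)) 0 % 2 ^ c)) := by
  have h5 : ∀ X, cut q c (q * m) X = X % 2 ^ c := by
    intro X
    unfold cut
    rw [if_pos (Nat.mul_mod_right _ _)]
  rw [ev]
  simp only [h5]

theorem gKBX : GoalKBX := by
  intro hBl hEl Z g hg tst t q c m hT hq hVX
  obtain ⟨ht, hcK⟩ := hT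
  have hK := hg.K_pos
  have hp2 : 0 < 2 ^ c := Nat.two_pow_pos c
  intro γ v i T C A x z₀ s' hγ hC hx hz₀ hCe hi hrun
  set e := 3 * (q - 1) with he
  set By := 3 * q + 2 * (m % 2) with hBy
  set Bz := By + 1 with hBz
  have hD : Df e By Bz i := by
    have h1 : i < e ∨ i = 3 * q + 2 * ((m + 1) % 2) ∨ i = 3 * q + 2 * ((m + 1) % 2) + 1 := hi
    constructor <;> omega
  have hBRy : BR q m By := Or.inl rfl
  have hBRz : BR q m Bz := Or.inr rfl
  have hpush : ∀ B a : ℕ, (B * 2 ^ c + a % 2 ^ c) % 2 ^ c = a % 2 ^ c := by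
    intro B a
    rw [Nat.add_comm, Nat.add_mul_mod_self_right, Nat.mod_mod]
  have hpop : ∀ B a : ℕ, (B * 2 ^ c + a % 2 ^ c) / 2 ^ c = B := by
    intro B a
    rw [Nat.add_comm, Nat.add_mul_div_right _ _ hp2,
      Nat.div_eq_of_lt (Nat.mod_lt _ hp2), Nat.zero_add]
  have hph : ∀ d, sub q (nod v i T) ((q + 1) * m) d = phB q (m % 2) v i T d :=
    fun d => hEl.2.2.1 q m v i T d hq
  rw [hBl] at hrun
  obtain ⟨f, hf0, hf13, hf⟩ := hrun
  simp only [hph] at hf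
  have hγd : ∀ d τ, γ (d * 13 ^ ((q + 1) * m) + τ) < g.K ^ 3 := fun d τ => hγ _
  have hev : ∀ w X, ev t q c (q * m) w X < g.K := ev_lt ht q c (q * m)
  have S0 : St e By Bz i C C (C e) (C By) (C Bz) (C i) :=
    ⟨rfl, rfl, rfl, rfl, fun _ _ _ _ _ => rfl⟩
  -- phase 0
  have h := hf 0 (by norm_num)
  rw [phB0, hf0] at h
  obtain ⟨a0, ha0, q0, r0, e1⟩ := push0 g tst t q c hEl hK _ _ _ _ _ _ _ C A _ (hγd 0) h
  simp only [← he] at e1
  have S1 := S0.uE hD (g.sh a0 (C e))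
  have V1 := S1.val hC (hg.sh_V a0 ha0 _ (hC e)) (hC By) (hC Bz) (hC i)
  -- phase 1
  have h := hf 1 (by norm_num)
  rw [phB1, e1] at h
  obtain ⟨g1, z1, hz1, e2⟩ := (hVX _ _ _ _ _ _ _ (hγd 1) V1 hBRy).mp h
  rw [hpush] at g1 hz1
  set Y := ev t q c (q * m) (2 * v) (t 0 v a0 0 0 % 2 ^ c) with hY
  have hYK : Y < g.K := hev _ _
  rw [S1.hy] at hz1
  obtain rfl : g.hd Y (C By) = z1 := Option.some.inj hz1
  have hYV := hg.hd_V Y hYK _ (hC By)
  have S2 := S1.uY hD (g.hd Y (C By))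
  -- phase 2
  have h := hf 2 (by norm_num)
  rw [phB2, e2] at h
  obtain ⟨a2, ha2, q2, r2, t2, e3⟩ := pop0 g tst t q c hEl hK _ _ _ _ _ _ _ _ _ _ (hγd 2) h
  simp only [← he] at e3
  rw [hpop, S2.he] at e3
  have S3 := S2.uE hD (g.sh a2 (g.sh a0 (C e)))
  have hE3 := hg.sh_V a2 ha2 _ (hg.sh_V a0 ha0 _ (hC e))
  -- phase 3
  have h := hf 3 (by norm_num)
  rw [phB3, e3] at h
  obtain ⟨a3, ha3, y3, hy3, q3, r3, e4⟩ :=
    push1 g tst t q c hEl hK _ _ _ _ _ _ _ _ _ _ (hγd 3) h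
  simp only [← he, ← hBy] at e4
  rw [S3.he, S3.hy] at e4
  have S4 := (S3.uE hD (g.sh a3 (g.sh a2 (g.sh a0 (C e))))).uY hD (g.sh y3 (g.hd Y (C By)))
  have hE4 := hg.sh_V a3 ha3 _ hE3
  have hY4 := hg.sh_V y3 hy3 _ hYV
  have V4 := S4.val hC hE4 hY4 (hC Bz) (hC i)
  -- phase 4
  have h := hf 4 (by norm_num)
  rw [phB4, e4] at h
  obtain ⟨g4, z4, hz4, e5⟩ := (hVX _ _ _ _ _ _ _ (hγd 4) V4 hBRz).mp h
  rw [hpush] at g4 hz4
  set W := ev t q c (q * m) (2 * v + 1) (t 1 v a3 y3 0 % 2 ^ c) with hW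
  have hWK : W < g.K := hev _ _
  rw [S4.hz] at hz4
  obtain rfl : g.hd W (C Bz) = z4 := Option.some.inj hz4
  have hWV := hg.hd_V W hWK _ (hC Bz)
  have S5 := S4.uZ hD (g.hd W (C Bz))
  -- phase 5
  have h := hf 5 (by norm_num)
  rw [phB5, e5] at h
  obtain ⟨a5, ha5, y5, hy5, q5, r5, t5, e6⟩ :=
    pop1 g tst t q c hEl hK _ _ _ _ _ _ _ _ _ _ (hγd 5) h
  simp only [← he, ← hBy] at e6
  rw [hpop, S5.he, S5.hy] at e6
  have S6 := (S5.uE hD (g.sh a5 (g.sh a3 (g.sh a2 (g.sh a0 (C e)))))).uY hD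
    (g.sh y5 (g.sh y3 (g.hd Y (C By))))
  have hE6 := hg.sh_V a5 ha5 _ hE4
  have hY6 := hg.sh_V y5 hy5 _ hY4
  -- phase 6
  have h := hf 6 (by norm_num)
  rw [phB6, e6] at h
  obtain ⟨a6, ha6, y6, hy6, z6, hz6, q6, r6, w, hw, e7⟩ :=
    act2 g tst t q c hEl hK _ _ _ _ _ _ _ _ _ _ (hγd 6) h
  simp only [← he, ← hBy, ← hBz] at e7
  rw [S6.hi] at hw
  rw [S6.he, S6.hy, S6.hz] at e7
  have S7 := (((S6.uE hD (g.sh a6 (g.sh a5 (g.sh a3 (g.sh a2 (g.sh a0 (C e))))))).uY hD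
    (shl g (List.replicate 5 y6) (g.sh y5 (g.sh y3 (g.hd Y (C By)))))).uZ hD
    (shl g (List.replicate 9 z6) (g.hd W (C Bz)))).uI hD w
  have hE7 := hg.sh_V a6 ha6 _ hE6
  have hY7 := shl_V hg (List.replicate 5 y6)
    (fun b hb => by rw [List.eq_of_mem_replicate hb]; exact hy6) _ hY6
  have hZ7 := shl_V hg (List.replicate 9 z6)
    (fun b hb => by rw [List.eq_of_mem_replicate hb]; exact hz6) _ hWV
  have hI7 := app_V hg (ht _ _ _ _ _) (hC i) hw
  -- phase 7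
  have h := hf 7 (by norm_num)
  rw [phB7, e7] at h
  obtain ⟨a7, ha7, y7, hy7, q7, r7, e8⟩ :=
    push1 g tst t q c hEl hK _ _ _ _ _ _ _ _ _ _ (hγd 7) h
  simp only [← he, ← hBy] at e8
  rw [S7.he, S7.hy] at e8
  have S8 := (S7.uE hD (g.sh a7 (g.sh a6 (g.sh a5 (g.sh a3 (g.sh a2 (g.sh a0 (C e)))))))).uY hD
    (g.sh y7 (shl g (List.replicate 5 y6) (g.sh y5 (g.sh y3 (g.hd Y (C By))))))
  have hE8 := hg.sh_V a7 ha7 _ hE7
  have hY8 := hg.sh_V y7 hy7 _ hY7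
  have V8 := S8.val hC hE8 hY8 hZ7 hI7
  -- phase 8
  have h := hf 8 (by norm_num)
  rw [phB8, e8] at h
  obtain ⟨g8, z8, hz8, e9⟩ := (hVX _ _ _ _ _ _ _ (hγd 8) V8 hBRz).mp h
  rw [hpush] at g8 hz8
  rw [S8.hz] at hz8
  set W' := ev t q c (q * m) (2 * v + 1) (t 1 v a7 y7 0 % 2 ^ c) with hW'
  have hWK' : W' < g.K := hev _ _
  have hz8V := app_V hg hWK' hZ7 hz8
  have S9 := S8.uZ hD z8
  -- phase 9
  have h := hf 9 (by norm_num)
  rw [phB9, e9] at h
  obtain ⟨a9, ha9, y9, hy9, q9, r9, t9, e10⟩ :=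
    pop1 g tst t q c hEl hK _ _ _ _ _ _ _ _ _ _ (hγd 9) h
  simp only [← he, ← hBy] at e10
  rw [hpop, S9.he, S9.hy] at e10
  have S10 := (S9.uE hD (g.sh a9 (g.sh a7 (g.sh a6 (g.sh a5 (g.sh a3 (g.sh a2
    (g.sh a0 (C e))))))))).uY hD
    (g.sh y9 (g.sh y7 (shl g (List.replicate 5 y6) (g.sh y5 (g.sh y3 (g.hd Y (C By)))))))
  have hE10 := hg.sh_V a9 ha9 _ hE8
  have hY10 := hg.sh_V y9 hy9 _ hY8
  -- phase 10
  have h := hf 10 (by norm_num)
  rw [phB10, e10] at h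
  obtain ⟨a10, ha10, q10, r10, e11⟩ := push0 g tst t q c hEl hK _ _ _ _ _ _ _ _ _ _ (hγd 10) h
  simp only [← he] at e11
  rw [S10.he] at e11
  have S11 := S10.uE hD (g.sh a10 (g.sh a9 (g.sh a7 (g.sh a6 (g.sh a5 (g.sh a3 (g.sh a2
    (g.sh a0 (C e)))))))))
  have hE11 := hg.sh_V a10 ha10 _ hE10
  have V11 := S11.val hC hE11 hY10 hz8V hI7
  -- phase 11
  have h := hf 11 (by norm_num)
  rw [phB11, e11] at h
  obtain ⟨g11, y11, hy11, e12⟩ := (hVX _ _ _ _ _ _ _ (hγd 11) V11 hBRy).mp h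
  rw [hpush] at g11 hy11
  rw [S11.hy] at hy11
  set Y' := ev t q c (q * m) (2 * v) (t 0 v a10 0 0 % 2 ^ c) with hY'
  have hYK' : Y' < g.K := hev _ _
  have hy11V := app_V hg hYK' hY10 hy11
  have S12 := S11.uY hD y11
  -- phase 12
  have h := hf 12 (by norm_num)
  rw [phB12, e12] at h
  obtain ⟨a12, ha12, q12, r12, t12, e13⟩ :=
    pop0 g tst t q c hEl hK _ _ _ _ _ _ _ _ _ _ (hγd 12) h
  simp only [← he] at e13
  rw [hpop, S12.he] at e13
  have S13 := S12.uE hD (g.sh a12 (g.sh a10 (g.sh a9 (g.sh a7 (g.sh a6 (g.sh a5 (g.sh a3 (g.sh a2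
    (g.sh a0 (C e))))))))))
  have hE13 := hg.sh_V a12 ha12 _ hE11
  have V13 := S13.val hC hE13 hy11V hz8V hI7
  have e13' : f 13 = _ := e13
  rw [hf13] at e13'
  subst e13'
  refine ⟨rfl, V13, ?_, ?_⟩
  · intro j hj hji
    exact S13.ho j (by omega) (by omega) (by omega) hji
  · intro hun
    have hun' : (g.un x (g.sh a12 (g.sh a10 (g.sh a9 (g.sh a7 (g.sh a6 (g.sh a5 (g.sh a3 (g.sh a2
      (g.sh a0 (C e))))))))))).isSome := by
      have := hun
      simp only at this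
      rwa [S13.he] at this
    rw [hCe] at hun'
    have hall := hg.sound9 x hx [a0, a2, a3, a5, a6, a7, a9, a10, a12] rfl
      (by
        intro b hb
        simp only [List.mem_cons, List.not_mem_nil, or_false] at hb
        rcases hb with rfl | rfl | rfl | rfl | rfl | rfl | rfl | rfl | rfl <;> assumption)
      z₀ hz₀ hun'
    obtain rfl : a0 = x := hall _ (by simp)
    obtain rfl : a2 = a0 := hall _ (by simp)
    obtain rfl : a3 = a2 := hall _ (by simp)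
    obtain rfl : a5 = a3 := hall _ (by simp)
    obtain rfl : a6 = a5 := hall _ (by simp)
    obtain rfl : a7 = a6 := hall _ (by simp)
    obtain rfl : a9 = a7 := hall _ (by simp)
    obtain rfl : a10 = a9 := hall _ (by simp)
    obtain rfl : a12 = a10 := hall _ (by simp)
    have hYY : Y' = Y := rfl
    rw [hYY] at hy11
    have hy11' : g.un Y (shl g [y3, y5, y6, y6, y6, y6, y6, y7, y9] (g.hd Y (C By))) =
      some y11 := hy11
    have hally := hg.sound9 Y hYK [y3, y5, y6, y6, y6, y6, y6, y7, y9] rfl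
      (by
        intro b hb
        simp only [List.mem_cons, List.not_mem_nil, or_false] at hb
        rcases hb with rfl | rfl | rfl | rfl | rfl | rfl | rfl | rfl | rfl <;> assumption)
      (C By) (hC By) (by rw [hy11']; rfl)
    have k3 : y3 = Y := hally _ (by simp)
    have k5 : y5 = Y := hally _ (by simp)
    have k6 : y6 = Y := hally _ (by simp)
    have k7 : y7 = Y := hally _ (by simp)
    have k9 : y9 = Y := hally _ (by simp)
    have hy11e : y11 = C By := by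
      rw [k3, k5, k6, k7, k9] at hy11'
      have := hg.ok9 Y hYK (C By) (hC By)
      exact Option.some.inj (hy11'.symm.trans this)
    have hWW : W' = W := by rw [hW', hW, k7, k3]
    rw [hWW] at hz8
    have hz8' : g.un W (shl g (List.replicate 9 z6) (g.hd W (C Bz))) = some z8 := hz8
    have kz : z6 = W := hg.sound9 W hWK (List.replicate 9 z6) (List.length_replicate ..)
      (fun b hb => by rw [List.eq_of_mem_replicate hb]; exact hz6) (C Bz) (hC Bz)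
      (by rw [hz8']; rfl) z6 (by simp)
    have hz8e : z8 = C Bz := by
      rw [kz] at hz8'
      exact Option.some.inj (hz8'.symm.trans (hg.ok9 W hWK (C Bz) (hC Bz)))
    have hWe : W = ev t q c (q * m) (2 * v + 1) (t 1 v a12 (ev t q c (q * m) (2 * v)
        (t 0 v a12 0 0 % 2 ^ c)) 0 % 2 ^ c) := by rw [hW, k3]
    refine ⟨?_, w, ?_, ?_⟩
    · intro τ hτ
      have hpos : 0 < 13 ^ ((q + 1) * m) := pow_pos (by norm_num) _
      obtain ⟨d, ρ, hd, hρ, rfl⟩ : ∃ d ρ, d < 13 ∧ ρ < 13 ^ ((q + 1) * m) ∧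
          τ = d * 13 ^ ((q + 1) * m) + ρ := by
        refine ⟨τ / 13 ^ ((q + 1) * m), τ % 13 ^ ((q + 1) * m), ?_, Nat.mod_lt _ hpos, ?_⟩
        · rw [Nat.div_lt_iff_lt_mul hpos, ← pow_succ']
          exact hτ
        · rw [Nat.mul_comm]
          exact (Nat.div_add_mod _ _).symm
      rw [can_bot g.K t q c m v a12 d ρ hq hρ, ← hY]
      have E : ∀ (d G : ℕ), γ (d * 13 ^ ((q + 1) * m) + 0) = G →
          (∀ τ, 0 < τ → τ < 13 ^ ((q + 1) * m) → γ (d * 13 ^ ((q + 1) * m) + τ) = 0) →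
          γ (d * 13 ^ ((q + 1) * m) + ρ) = if ρ ≠ 0 then 0 else G := by
        intro d G l1 l2
        by_cases l3 : ρ = 0
        · rw [l3, if_neg (by simp)]
          exact l1
        · rw [if_pos l3]
          exact l2 ρ (Nat.pos_of_ne_zero l3) hρ
      rw [k3] at q3 g4 hW
      rw [k5] at q5
      rw [k6, kz, hW] at q6
      rw [k7] at q7 g8
      rw [k9] at q9
      interval_cases d
      · exact (E 0 _ q0 r0).trans (by simp)
      · exact (g1 ρ hρ).trans (by simp)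
      · exact (E 2 _ q2 r2).trans (by simp)
      · exact (E 3 _ q3 r3).trans (by simp)
      · exact (g4 ρ hρ).trans (by simp)
      · exact (E 5 _ q5 r5).trans (by simp)
      · exact (E 6 _ q6 r6).trans (by simp)
      · exact (E 7 _ q7 r7).trans (by simp)
      · exact (g8 ρ hρ).trans (by simp)
      · exact (E 9 _ q9 r9).trans (by simp)
      · exact (E 10 _ q10 r10).trans (by simp)
      · exact (g11 ρ hρ).trans (by simp)
      · exact (E 12 _ q12 r12).trans (by simp)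
    · rw [ev_bot, ← hWe, ← hY, ← k6, ← kz]
      exact hw
    · exact S13.fin hy11e hz8e

end Pool.Agent.Helper33.CTG
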